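import Mathlib

/-!
# Infinite log-convexity of the second differences of the Fennessey-Larcombe-French sequence

With `t = sin y / (sin x + sin y)` and `J n = ∫∫ sin x * t^(n+1)` over the square `(0, π/2)²`, a
divergence identity gives a recurrence for `A n = π/2 - J n`, which is the recurrence of
`V n / 16^n`. Hence `V n = c 16^n A n` for `n ≥ 1`. With `lam` the image under `t` of the measure
`sin x * t dx dy`, the numbers `W n / (c² 256^n)` are the moments `∫ τ^(n-1)` of the difference of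
the measures `(π/2)(1-τ)² lam` and the image of `(1/2)(x-y)² lam ⊗ lam` under the product, and
this difference is a positive measure. Moments of positive measures on `[0,1]` are infinitely
log-convex.
-/

open MeasureTheory Set Real
open scoped ENNReal

namespace Pool.Agent.Results.MP_e3a7ef_co.InfLogConvex

/-- Lebesgue measure on `(0, π/2)`. -/
noncomputable def nu : Measure ℝ := volume.restrict (Ioo 0 (π / 2))

instance : IsFiniteMeasure nu := by unfold nu; infer_instance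

/-- Lebesgue measure on the open square `(0, π/2)²`. -/
noncomputable def mu : Measure (ℝ × ℝ) := nu.prod nu

instance : IsFiniteMeasure mu := by unfold mu; infer_instance

noncomputable def T (p : ℝ × ℝ) : ℝ := sin p.2 / (sin p.1 + sin p.2)

lemma nu_ae : ∀ᵐ x ∂nu, x ∈ Ioo 0 (π / 2) := ae_restrict_mem measurableSet_Ioo

lemma mu_ae : ∀ᵐ p ∂mu, p.1 ∈ Ioo 0 (π / 2) ∧ p.2 ∈ Ioo 0 (π / 2) := by
  unfold mu nu
  rw [Measure.prod_restrict]
  filter_upwards [ae_restrict_mem (measurableSet_Ioo.prod measurableSet_Ioo)] with p hp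
  exact hp

lemma nu_real : nu.real univ = π / 2 := by
  simp [nu, Measure.real]
  positivity

lemma sin_pos' {x : ℝ} (hx : x ∈ Ioo 0 (π / 2)) : 0 < sin x :=
  sin_pos_of_pos_of_lt_pi hx.1 (by linarith [hx.2, pi_pos])

lemma T_mem {p : ℝ × ℝ} (h : p.1 ∈ Ioo 0 (π / 2) ∧ p.2 ∈ Ioo 0 (π / 2)) : T p ∈ Ioo (0 : ℝ) 1 := by
  have h1 := sin_pos' h.1
  have h2 := sin_pos' h.2
  constructor
  · exact div_pos h2 (by positivity)
  · unfold T; rw [div_lt_one (by positivity)]; linarith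

lemma meas_T : Measurable T := by unfold T; fun_prop

/-- integrability of `x^(-1/2)`-type function -/
lemma int_inv_sqrt_sin : Integrable (fun x => (√(sin x))⁻¹) nu := by
  have h1 : Integrable (fun x : ℝ => √(π / 2) * x ^ (-(1 / 2) : ℝ)) nu := by
    refine Integrable.const_mul ?_ _
    have := (intervalIntegral.intervalIntegrable_rpow' (a := 0) (b := π / 2) (r := -(1 / 2))
      (by norm_num))
    rw [intervalIntegrable_iff_integrableOn_Ioo_of_le (by positivity)] at this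
    exact this
  refine h1.mono' (by fun_prop) ?_
  filter_upwards [nu_ae] with x hx
  have hs := sin_pos' hx
  have h2 : 2 / π * x ≤ sin x := mul_le_sin hx.1.le hx.2.le
  have hx0 := hx.1
  rw [Real.norm_of_nonneg (by positivity)]
  have h3 : √(2 / π * x) ≤ √(sin x) := sqrt_le_sqrt h2
  have h4 : 0 < √(2 / π * x) := by positivity
  calc (√(sin x))⁻¹ ≤ (√(2 / π * x))⁻¹ := inv_anti₀ h4 h3
    _ = √(π / 2) * x ^ (-(1 / 2) : ℝ) := by
      rw [sqrt_mul (by positivity), mul_inv, ← sqrt_inv, inv_div, rpow_neg hx0.le, ← sqrt_eq_rpow]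

lemma int_q : Integrable (fun p : ℝ × ℝ => (sin p.1 + sin p.2)⁻¹) mu := by
  have h1 : Integrable (fun p : ℝ × ℝ => (√(sin p.1))⁻¹ * (√(sin p.2))⁻¹) mu :=
    int_inv_sqrt_sin.mul_prod int_inv_sqrt_sin
  refine h1.mono' (by fun_prop) ?_
  filter_upwards [mu_ae] with p hp
  have ha := sin_pos' hp.1
  have hb := sin_pos' hp.2
  rw [Real.norm_of_nonneg (by positivity), ← mul_inv]
  refine inv_anti₀ (by positivity) ?_
  have hsa := sq_sqrt ha.le
  have hsb := sq_sqrt hb.le
  nlinarith [sq_nonneg (√(sin p.1) - √(sin p.2)), sqrt_nonneg (sin p.1), sqrt_nonneg (sin p.2),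
    mul_nonneg (sqrt_nonneg (sin p.1)) (sqrt_nonneg (sin p.2))]

/-- bounded multiples of integrable functions -/
lemma int_mul_poly {P : ℝ → ℝ} (hP : Continuous P) {h : ℝ × ℝ → ℝ} (hh : Integrable h mu) :
    Integrable (fun p => P (T p) * h p) mu := by
  obtain ⟨C, hC⟩ := (isCompact_Icc (a := (0 : ℝ)) (b := 1)).exists_bound_of_continuousOn
    hP.continuousOn
  refine Integrable.bdd_mul (c := C) hh ?_ ?_
  · exact (hP.measurable.comp meas_T).aestronglyMeasurable
  · filter_upwards [mu_ae] with p hp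
    exact hC _ (Ioo_subset_Icc_self (T_mem hp))

lemma int_of_bdd {h : ℝ × ℝ → ℝ} (hm : Measurable h) (C : ℝ) (hC : ∀ p, |h p| ≤ C) :
    Integrable h mu :=
  Integrable.of_bound hm.aestronglyMeasurable C (Filter.Eventually.of_forall hC)

noncomputable def P1 (m : ℕ) (t : ℝ) : ℝ :=
  ((m : ℝ) + 2) ^ 2 * t ^ (m + 1) - ((m : ℝ) + 1) * (2 * m + 5) * t ^ (m + 2)
    + ((m : ℝ) + 2) * (m + 1) * t ^ (m + 3)

noncomputable def P1' (m : ℕ) (t : ℝ) : ℝ :=
  ((m : ℝ) + 1) * (m + 2) * (t ^ m * ((m + 2) - (2 * m + 5) * t + (m + 3) * t ^ 2))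

noncomputable def P2 (m : ℕ) (t : ℝ) : ℝ :=
  ((m : ℝ) + 2) * (m + 1) * (t ^ (m + 2) - t ^ (m + 3))

noncomputable def P2' (m : ℕ) (t : ℝ) : ℝ :=
  ((m : ℝ) + 1) * (m + 2) * (t ^ (m + 1) * ((m + 2) - (m + 3) * t))

lemma hasDerivAt_P1 (m : ℕ) (t : ℝ) : HasDerivAt (P1 m) (P1' m t) t := by
  have h := (((hasDerivAt_pow (m + 1) t).const_mul (((m : ℝ) + 2) ^ 2)).sub
    ((hasDerivAt_pow (m + 2) t).const_mul (((m : ℝ) + 1) * (2 * m + 5)))).add
    ((hasDerivAt_pow (m + 3) t).const_mul (((m : ℝ) + 2) * (m + 1)))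
  refine h.congr_deriv ?_
  unfold P1'
  simp only [Nat.add_sub_cancel, show m + 2 - 1 = m + 1 from rfl, show m + 3 - 1 = m + 2 from rfl]
  push_cast
  ring

lemma hasDerivAt_P2 (m : ℕ) (t : ℝ) : HasDerivAt (P2 m) (P2' m t) t := by
  have h := ((hasDerivAt_pow (m + 2) t).sub (hasDerivAt_pow (m + 3) t)).const_mul
    (((m : ℝ) + 2) * (m + 1))
  refine h.congr_deriv ?_
  unfold P2'
  simp only [show m + 2 - 1 = m + 1 from rfl, show m + 3 - 1 = m + 2 from rfl]
  push_cast
  ring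

noncomputable def f1 (m : ℕ) (p : ℝ × ℝ) : ℝ :=
  -sin p.1 * P1 m (T p) + cos p.1 * (P1' m (T p) * (-(sin p.2 * cos p.1) / (sin p.1 + sin p.2) ^ 2))

noncomputable def f2 (m : ℕ) (p : ℝ × ℝ) : ℝ :=
  -sin p.2 * P2 m (T p) + cos p.2 * (P2' m (T p) * ((sin p.1 * cos p.2) / (sin p.1 + sin p.2) ^ 2))

lemma cont_P1 (m : ℕ) : Continuous (P1 m) := by unfold P1; fun_prop
lemma cont_P1' (m : ℕ) : Continuous (P1' m) := by unfold P1'; fun_prop
lemma cont_P2 (m : ℕ) : Continuous (P2 m) := by unfold P2; fun_prop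
lemma cont_P2' (m : ℕ) : Continuous (P2' m) := by unfold P2'; fun_prop

lemma int_f1 (m : ℕ) : Integrable (f1 m) mu := by
  have h1 : Integrable (fun p : ℝ × ℝ => P1 m (T p) * -sin p.1) mu :=
    int_mul_poly (cont_P1 m) (int_of_bdd (by fun_prop) 1 fun p => by
      rw [abs_neg]; exact abs_sin_le_one _)
  have h2 : Integrable (fun p : ℝ × ℝ => -(cos p.1 ^ 2) * (sin p.1 + sin p.2)⁻¹) mu := by
    refine Integrable.bdd_mul (c := 1) int_q (by fun_prop) (Filter.Eventually.of_forall fun p => ?_)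
    rw [norm_neg, norm_pow, norm_eq_abs]
    exact pow_le_one₀ (abs_nonneg _) (abs_cos_le_one _)
  have h3 := int_mul_poly (P := fun t => P1' m t * t) ((cont_P1' m).mul continuous_id) h2
  refine (h1.add h3).congr ?_
  filter_upwards [mu_ae] with p hp
  have ha := sin_pos' hp.1
  have hb := sin_pos' hp.2
  have hab : sin p.1 + sin p.2 ≠ 0 := by positivity
  simp only [Pi.add_apply, f1]
  have : T p * (sin p.1 + sin p.2)⁻¹ = sin p.2 / (sin p.1 + sin p.2) ^ 2 := by
    unfold T; field_simp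
  calc P1 m (T p) * -sin p.1 + P1' m (T p) * T p * (-cos p.1 ^ 2 * (sin p.1 + sin p.2)⁻¹)
      = P1 m (T p) * -sin p.1 + P1' m (T p) * (-cos p.1 ^ 2) * (T p * (sin p.1 + sin p.2)⁻¹) := by
        ring
    _ = _ := by rw [this]; ring

lemma int_f2 (m : ℕ) : Integrable (f2 m) mu := by
  have h1 : Integrable (fun p : ℝ × ℝ => P2 m (T p) * -sin p.2) mu :=
    int_mul_poly (cont_P2 m) (int_of_bdd (by fun_prop) 1 fun p => by
      rw [abs_neg]; exact abs_sin_le_one _)
  have h2 : Integrable (fun p : ℝ × ℝ => (cos p.2 ^ 2) * (sin p.1 + sin p.2)⁻¹) mu := by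
    refine Integrable.bdd_mul (c := 1) int_q (by fun_prop) (Filter.Eventually.of_forall fun p => ?_)
    rw [norm_pow, norm_eq_abs]
    exact pow_le_one₀ (abs_nonneg _) (abs_cos_le_one _)
  have h3 := int_mul_poly (P := fun t => P2' m t * (1 - t)) ((cont_P2' m).mul (by fun_prop)) h2
  refine (h1.add h3).congr ?_
  filter_upwards [mu_ae] with p hp
  have ha := sin_pos' hp.1
  have hb := sin_pos' hp.2
  have hab : sin p.1 + sin p.2 ≠ 0 := by positivity
  simp only [Pi.add_apply, f2]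
  have : (1 - T p) * (sin p.1 + sin p.2)⁻¹ = sin p.1 / (sin p.1 + sin p.2) ^ 2 := by
    unfold T; field_simp; ring
  calc P2 m (T p) * -sin p.2 + P2' m (T p) * (1 - T p) * (cos p.2 ^ 2 * (sin p.1 + sin p.2)⁻¹)
      = P2 m (T p) * -sin p.2 + P2' m (T p) * (cos p.2 ^ 2) * ((1 - T p) * (sin p.1 + sin p.2)⁻¹) := by
        ring
    _ = _ := by rw [this]; ring

lemma inner1 (m : ℕ) {y : ℝ} (hy : y ∈ Ioo 0 (π / 2)) : ∫ x, f1 m (x, y) ∂nu = -1 := by
  have hb := sin_pos' hy
  have hpi := pi_pos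
  have hpos : ∀ x ∈ Icc 0 (π / 2), 0 < sin x + sin y := fun x hx => by
    have := sin_nonneg_of_nonneg_of_le_pi hx.1 (by linarith [hx.2])
    linarith
  have hd : ∀ x ∈ uIcc 0 (π / 2), HasDerivAt (fun x => cos x * P1 m (sin y / (sin x + sin y)))
      (f1 m (x, y)) x := by
    intro x hx
    rw [uIcc_of_le (by positivity)] at hx
    have h0 := (hpos x hx).ne'
    have hT : HasDerivAt (fun x => sin y / (sin x + sin y))
        (-(sin y * cos x) / (sin x + sin y) ^ 2) x := by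
      have := (hasDerivAt_const x (sin y)).div ((hasDerivAt_sin x).add_const (sin y)) h0
      refine this.congr_deriv ?_
      simp
    exact (hasDerivAt_cos x).mul ((hasDerivAt_P1 m _).comp x hT)
  have hc : ContinuousOn (fun x => f1 m (x, y)) (uIcc 0 (π / 2)) := by
    rw [uIcc_of_le (by positivity)]
    have hTc : ContinuousOn (fun x => T (x, y)) (Icc 0 (π / 2)) := by
      unfold T
      exact ContinuousOn.div (by fun_prop) (by fun_prop) fun x hx => (hpos x hx).ne'
    unfold f1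
    refine ContinuousOn.add (ContinuousOn.mul (by fun_prop) ((cont_P1 m).comp_continuousOn hTc)) ?_
    refine ContinuousOn.mul (by fun_prop) (ContinuousOn.mul ((cont_P1' m).comp_continuousOn hTc) ?_)
    exact ContinuousOn.div (by fun_prop) (by fun_prop) fun x hx => pow_ne_zero 2 (hpos x hx).ne'
  have := intervalIntegral.integral_eq_sub_of_hasDerivAt hd hc.intervalIntegrable
  rw [intervalIntegral.integral_of_le (by positivity), integral_Ioc_eq_integral_Ioo] at this
  unfold nu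
  rw [this]
  simp only [cos_pi_div_two, sin_zero, cos_zero, zero_add, div_self hb.ne', zero_mul, one_mul]
  unfold P1
  simp only [one_pow]
  ring

lemma inner2 (m : ℕ) {x : ℝ} (hx : x ∈ Ioo 0 (π / 2)) : ∫ y, f2 m (x, y) ∂nu = 0 := by
  have hb := sin_pos' hx
  have hpi := pi_pos
  have hpos : ∀ y ∈ Icc 0 (π / 2), 0 < sin x + sin y := fun y hy => by
    have := sin_nonneg_of_nonneg_of_le_pi hy.1 (by linarith [hy.2])
    linarith
  have hd : ∀ y ∈ uIcc 0 (π / 2), HasDerivAt (fun y => cos y * P2 m (sin y / (sin x + sin y)))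
      (f2 m (x, y)) y := by
    intro y hy
    rw [uIcc_of_le (by positivity)] at hy
    have h0 := (hpos y hy).ne'
    have hT : HasDerivAt (fun y => sin y / (sin x + sin y))
        ((sin x * cos y) / (sin x + sin y) ^ 2) y := by
      have := (hasDerivAt_sin y).div ((hasDerivAt_sin y).const_add (sin x)) h0
      refine this.congr_deriv ?_
      congr 1
      ring
    exact (hasDerivAt_cos y).mul ((hasDerivAt_P2 m _).comp y hT)
  have hc : ContinuousOn (fun y => f2 m (x, y)) (uIcc 0 (π / 2)) := by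
    rw [uIcc_of_le (by positivity)]
    have hTc : ContinuousOn (fun y => T (x, y)) (Icc 0 (π / 2)) := by
      unfold T
      exact ContinuousOn.div (by fun_prop) (by fun_prop) fun y hy => (hpos y hy).ne'
    unfold f2
    refine ContinuousOn.add (ContinuousOn.mul (by fun_prop) ((cont_P2 m).comp_continuousOn hTc)) ?_
    refine ContinuousOn.mul (by fun_prop) (ContinuousOn.mul ((cont_P2' m).comp_continuousOn hTc) ?_)
    exact ContinuousOn.div (by fun_prop) (by fun_prop) fun y hy => pow_ne_zero 2 (hpos y hy).ne'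
  have := intervalIntegral.integral_eq_sub_of_hasDerivAt hd hc.intervalIntegrable
  rw [intervalIntegral.integral_of_le (by positivity), integral_Ioc_eq_integral_Ioo] at this
  unfold nu
  rw [this]
  simp [P2]

/-- the integrals `j_n` -/
noncomputable def J (n : ℕ) : ℝ := ∫ p, sin p.1 * T p ^ (n + 1) ∂mu

lemma int_K (n : ℕ) : Integrable (fun p : ℝ × ℝ => sin p.1 * T p ^ (n + 1)) mu := by
  have h : Integrable (fun p : ℝ × ℝ => T p ^ (n + 1) * sin p.1) mu :=
    int_mul_poly (P := fun t => t ^ (n + 1)) (by fun_prop)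
      (int_of_bdd (by fun_prop) 1 fun p => abs_sin_le_one _)
  simpa [mul_comm] using h

lemma ident (m : ℕ) {p : ℝ × ℝ} (h : p.1 ∈ Ioo 0 (π / 2) ∧ p.2 ∈ Ioo 0 (π / 2)) :
    2 * ((m : ℝ) + 2) ^ 2 * (m + 1) * (sin p.1 * T p ^ (m + 2 + 1))
      - (3 * ((m : ℝ) + 2) ^ 2 - (m + 2) - 1) * (m + 1) * (sin p.1 * T p ^ (m + 1 + 1))
      + ((m : ℝ) + 2) ^ 2 * m * (sin p.1 * T p ^ (m + 1)) = f1 m p + f2 m p := by
  have ha := sin_pos' h.1
  have hb := sin_pos' h.2
  have hca : cos p.1 ^ 2 = 1 - sin p.1 ^ 2 := by rw [← cos_sq_add_sin_sq p.1]; ring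
  have hcb : cos p.2 ^ 2 = 1 - sin p.2 ^ 2 := by rw [← cos_sq_add_sin_sq p.2]; ring
  have hab : sin p.1 + sin p.2 ≠ 0 := by positivity
  set a := sin p.1
  set b := sin p.2
  have e1 : f1 m p = -a * P1 m (T p) - (1 - a ^ 2) * P1' m (T p) * (b / (a + b) ^ 2) := by
    unfold f1
    rw [← hca]; ring
  have e2 : f2 m p = -b * P2 m (T p) + (1 - b ^ 2) * P2' m (T p) * (a / (a + b) ^ 2) := by
    unfold f2
    rw [← hcb]; ring
  set t := T p with ht
  have htdef : t = b / (a + b) := ht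
  have hb' : b = t * (a + b) := by rw [htdef]; field_simp
  have ha' : a = (1 - t) * (a + b) := by rw [htdef]; field_simp; ring
  rw [e1, e2]
  set r := (a + b) with hr
  have hbr : b / r ^ 2 = t / r := by rw [hb']; field_simp
  have har : a / r ^ 2 = (1 - t) / r := by
    nth_rewrite 1 [ha']; field_simp
  rw [hbr, har]
  have key : P2' m t * (1 - t) = P1' m t * t := by unfold P1' P2'; ring
  have e3 : -a * P1 m t - (1 - a ^ 2) * P1' m t * (t / r)
      + (-b * P2 m t + (1 - b ^ 2) * P2' m t * ((1 - t) / r))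
      = -a * P1 m t - b * P2 m t + (a ^ 2 - b ^ 2) * (P2' m t * (1 - t)) / r := by
    have : (1 - a ^ 2) * P1' m t * (t / r) = (1 - a ^ 2) * (P2' m t * (1 - t)) / r := by
      rw [key]; ring
    rw [this]; ring
  have e4 : (a ^ 2 - b ^ 2) / r = a - b := by
    rw [hr]; field_simp; ring
  have e5 : -a * P1 m t - b * P2 m t + (a ^ 2 - b ^ 2) * (P2' m t * (1 - t)) / r
      = -a * P1 m t - b * P2 m t + (a - b) * (P2' m t * (1 - t)) := by
    rw [← e4]; ring
  rw [show -a * P1 m t - (1 - a ^ 2) * P1' m t * (t / r)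
      + (-b * P2 m t + (1 - b ^ 2) * P2' m t * ((1 - t) / r))
      = -a * P1 m t - b * P2 m t + (a - b) * (P2' m t * (1 - t)) from e3.trans e5]
  have hb2 : b * (1 - t) = a * t := by
    calc b * (1 - t) = t * ((1 - t) * r) := by rw [hb']; ring
      _ = a * t := by rw [← ha']; ring
  have e6 : b * P2 m t = a * ((m + 2) * (m + 1) * t ^ (m + 3)) := by
    unfold P2
    calc b * (((m : ℝ) + 2) * (m + 1) * (t ^ (m + 2) - t ^ (m + 3)))
        = (b * (1 - t)) * (((m : ℝ) + 2) * (m + 1) * t ^ (m + 2)) := by ring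
      _ = _ := by rw [hb2]; ring
  have e7 : (a - b) * (P2' m t * (1 - t)) = a * (P2' m t * (1 - 2 * t)) := by
    calc (a - b) * (P2' m t * (1 - t)) = a * (1 - t) * P2' m t - (b * (1 - t)) * P2' m t := by ring
      _ = _ := by rw [hb2]; ring
  rw [e6, e7]
  unfold P1 P2'
  ring

theorem J_rec (m : ℕ) :
    2 * ((m : ℝ) + 2) ^ 2 * (m + 1) * J (m + 2)
      - (3 * ((m : ℝ) + 2) ^ 2 - (m + 2) - 1) * (m + 1) * J (m + 1)
      + ((m : ℝ) + 2) ^ 2 * m * J m = -(π / 2) := by
  have h1 : ∫ p, f1 m p ∂mu = -(π / 2) := by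
    unfold mu
    rw [integral_prod_symm _ (int_f1 m)]
    calc ∫ y, ∫ x, f1 m (x, y) ∂nu ∂nu = ∫ _, (-1 : ℝ) ∂nu := by
          refine integral_congr_ae ?_
          filter_upwards [nu_ae] with y hy
          exact inner1 m hy
      _ = -(π / 2) := by
          rw [integral_const, nu_real]; simp
  have h2 : ∫ p, f2 m p ∂mu = 0 := by
    unfold mu
    rw [integral_prod _ (int_f2 m)]
    calc ∫ x, ∫ y, f2 m (x, y) ∂nu ∂nu = ∫ _, (0 : ℝ) ∂nu := by
          refine integral_congr_ae ?_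
          filter_upwards [nu_ae] with y hy
          exact inner2 m hy
      _ = 0 := by simp
  have h3 : ∫ p, (2 * ((m : ℝ) + 2) ^ 2 * (m + 1) * (sin p.1 * T p ^ (m + 2 + 1))
      - (3 * ((m : ℝ) + 2) ^ 2 - (m + 2) - 1) * (m + 1) * (sin p.1 * T p ^ (m + 1 + 1))
      + ((m : ℝ) + 2) ^ 2 * m * (sin p.1 * T p ^ (m + 1))) ∂mu = ∫ p, (f1 m p + f2 m p) ∂mu := by
    refine integral_congr_ae ?_
    filter_upwards [mu_ae] with p hp
    exact ident m hp
  rw [integral_add (int_f1 m) (int_f2 m), h1, h2, integral_add, integral_sub,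
    integral_const_mul, integral_const_mul, integral_const_mul] at h3
  · unfold J
    linarith
  · exact (int_K _).const_mul _
  · exact (int_K _).const_mul _
  · exact ((int_K _).const_mul _).sub ((int_K _).const_mul _)
  · exact (int_K _).const_mul _


/-! ### The measure `lam` -/

noncomputable def g0 (p : ℝ × ℝ) : ℝ := sin p.1 * T p

lemma meas_g0 : Measurable g0 := by
  unfold g0; exact (measurable_sin.comp measurable_fst).mul meas_T

noncomputable def lam : Measure ℝ := (mu.withDensity (fun p => ENNReal.ofReal (g0 p))).map T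

lemma lintegral_lam {F : ℝ → ℝ≥0∞} (hF : Measurable F) :
    ∫⁻ t, F t ∂lam = ∫⁻ p, ENNReal.ofReal (g0 p) * F (T p) ∂mu := by
  unfold lam
  have h := lintegral_withDensity_eq_lintegral_mul mu meas_g0.ennreal_ofReal (hF.comp meas_T)
  rw [lintegral_map hF meas_T]
  exact h

lemma diag_null : ∀ᵐ p ∂mu, p.1 ≠ p.2 := by
  unfold mu
  rw [Measure.ae_prod_iff_ae_ae]
  · refine Filter.Eventually.of_forall fun x => ?_
    have : nu {x} = 0 := by
      unfold nu; exact measure_singleton x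
    rw [ae_iff]
    convert this using 2
    ext y
    simp [eq_comm]
  · exact (measurableSet_eq_fun measurable_fst measurable_snd).compl

lemma split_lam {F : ℝ → ℝ≥0∞} (hF : Measurable F) :
    ∫⁻ t, F t ∂lam =
      (∫⁻ x, (∫⁻ y in Ioo 0 x, ENNReal.ofReal (g0 (x, y)) * F (T (x, y))) ∂nu)
      + ∫⁻ y, (∫⁻ x in Ioo 0 y, ENNReal.ofReal (g0 (x, y)) * F (T (x, y))) ∂nu := by
  rw [lintegral_lam hF]
  set G : ℝ × ℝ → ℝ≥0∞ := fun p => ENNReal.ofReal (g0 p) * F (T p) with hG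
  have hGm : Measurable G := meas_g0.ennreal_ofReal.mul (hF.comp meas_T)
  have hD : MeasurableSet {p : ℝ × ℝ | p.2 < p.1} := measurableSet_lt measurable_snd measurable_fst
  have hD' : MeasurableSet {p : ℝ × ℝ | p.1 < p.2} := measurableSet_lt measurable_fst measurable_snd
  have h1 : ∫⁻ p, G p ∂mu = ∫⁻ p, ({p : ℝ × ℝ | p.2 < p.1}.indicator G p
      + {p : ℝ × ℝ | p.1 < p.2}.indicator G p) ∂mu := by
    refine lintegral_congr_ae ?_
    filter_upwards [diag_null] with p hp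
    rcases lt_or_gt_of_ne hp with h | h
    · simp [indicator, h, h.not_gt]
    · simp [indicator, h, h.not_gt]
  rw [h1, lintegral_add_left (hGm.indicator hD)]
  unfold mu
  rw [lintegral_prod _ (hGm.indicator hD).aemeasurable,
    lintegral_prod_symm' _ (hGm.indicator hD')]
  congr 1
  · refine lintegral_congr_ae ?_
    filter_upwards [nu_ae] with x hx
    have : ∀ y, {p : ℝ × ℝ | p.2 < p.1}.indicator G (x, y) = (Iio x).indicator (fun y => G (x, y)) y :=
      fun y => by simp [indicator]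
    simp_rw [this]
    rw [lintegral_indicator measurableSet_Iio]
    unfold nu
    rw [Measure.restrict_restrict measurableSet_Iio]
    congr 2
    ext y
    simp only [mem_inter_iff, mem_Iio, mem_Ioo]
    constructor
    · rintro ⟨h1, h2, h3⟩; exact ⟨h2, h1⟩
    · rintro ⟨h1, h2⟩; exact ⟨h2, h1, h2.trans hx.2⟩
  · refine lintegral_congr_ae ?_
    filter_upwards [nu_ae] with x hx
    have : ∀ y, {p : ℝ × ℝ | p.1 < p.2}.indicator G (y, x) = (Iio x).indicator (fun y => G (y, x)) y :=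
      fun y => by simp [indicator]
    simp_rw [this]
    rw [lintegral_indicator measurableSet_Iio]
    unfold nu
    rw [Measure.restrict_restrict measurableSet_Iio]
    congr 2
    ext y
    simp only [mem_inter_iff, mem_Iio, mem_Ioo]
    constructor
    · rintro ⟨h1, h2, h3⟩; exact ⟨h2, h1⟩
    · rintro ⟨h1, h2⟩; exact ⟨h2, h1, h2.trans hx.2⟩

noncomputable def uu (t : ℝ) : ℝ := t / ((1 - t) * √(1 - 2 * t))
noncomputable def ll (t : ℝ) : ℝ := t / (1 - t) ^ 2

lemma meas_uu : Measurable uu := by unfold uu; fun_prop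
lemma meas_ll : Measurable ll := by unfold ll; fun_prop

section inner
variable {x : ℝ} (hx : x ∈ Ioo 0 (π / 2))
include hx

lemma sub_Ioo {y : ℝ} (hy : y ∈ Ioo 0 x) : y ∈ Ioo 0 (π / 2) := ⟨hy.1, hy.2.trans hx.2⟩

lemma sin_lt' {y : ℝ} (hy : y ∈ Ioo 0 x) : sin y < sin x :=
  sin_lt_sin_of_lt_of_le_pi_div_two (by linarith [hy.1, pi_pos]) hx.2.le hy.2

lemma T_deriv : ∀ y ∈ Ioo 0 x, HasDerivWithinAt (fun y => T (x, y))
    ((sin x * cos y) / (sin x + sin y) ^ 2) (Ioo 0 x) y := by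
  intro y hy
  have ha := sin_pos' hx
  have hb := sin_pos' (sub_Ioo hx hy)
  have := (hasDerivAt_sin y).div ((hasDerivAt_sin y).const_add (sin x)) (by positivity)
  refine (this.congr_deriv ?_).hasDerivWithinAt
  congr 1
  ring

lemma T_inj : InjOn (fun y => T (x, y)) (Ioo 0 x) := by
  intro y hy z hz h
  have ha := sin_pos' hx
  have hb := sin_pos' (sub_Ioo hx hy)
  have hc := sin_pos' (sub_Ioo hx hz)
  simp only [T] at h
  rw [div_eq_div_iff (by positivity) (by positivity)] at h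
  have h2 : sin x * (sin y - sin z) = 0 := by linarith
  rcases mul_eq_zero.1 h2 with h3 | h3
  · exact absurd h3 ha.ne'
  · have hpi := pi_pos
    refine injOn_sin ⟨?_, ?_⟩ ⟨?_, ?_⟩ (sub_eq_zero.1 h3)
    · linarith [hy.1]
    · exact (sub_Ioo hx hy).2.le
    · linarith [hz.1]
    · exact (sub_Ioo hx hz).2.le

lemma T_image : (fun y => T (x, y)) '' Ioo 0 x = Ioo 0 (1 / 2) := by
  have ha := sin_pos' hx
  have hpi := pi_pos
  ext t
  constructor
  · rintro ⟨y, hy, rfl⟩
    have hb := sin_pos' (sub_Ioo hx hy)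
    have hlt := sin_lt' hx hy
    simp only [T]
    constructor
    · positivity
    · rw [div_lt_div_iff₀ (by positivity) (by norm_num)]; linarith
  · rintro ⟨h0, h1⟩
    have h2 : 0 < 1 - t := by linarith
    have hb0 : 0 < sin x * t / (1 - t) := by positivity
    have hb1 : sin x * t / (1 - t) < sin x := by
      rw [div_lt_iff₀ h2]; nlinarith
    have hb2 : sin x ≤ 1 := sin_le_one x
    have hs : sin (arcsin (sin x * t / (1 - t))) = sin x * t / (1 - t) :=
      sin_arcsin (by linarith) (by linarith)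
    refine ⟨arcsin (sin x * t / (1 - t)), ⟨arcsin_pos.2 hb0, ?_⟩, ?_⟩
    · rw [arcsin_lt_iff_lt_sin' ⟨by linarith [hx.1], hx.2.le⟩]
      exact hb1
    · simp only [T, hs]
      field_simp
      ring

lemma inner_upper (F : ℝ → ℝ≥0∞) :
    ∫⁻ y in Ioo 0 x, ENNReal.ofReal (g0 (x, y)) * F (T (x, y)) ≤
      ENNReal.ofReal (sin x ^ 2) * ∫⁻ t in Ioo 0 (1 / 2), F t * ENNReal.ofReal (uu t) := by
  have ha := sin_pos' hx
  rw [← T_image hx, lintegral_image_eq_lintegral_abs_deriv_mul measurableSet_Ioo (T_deriv hx)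
    (T_inj hx), ← lintegral_const_mul' _ _ ENNReal.ofReal_ne_top]
  refine setLIntegral_mono' measurableSet_Ioo fun y hy => ?_
  have hb := sin_pos' (sub_Ioo hx hy)
  have hlt := sin_lt' hx hy
  have hc : 0 < cos y := cos_pos_of_mem_Ioo ⟨by linarith [hy.1, pi_pos], (sub_Ioo hx hy).2⟩
  have hcs : cos y ^ 2 = 1 - sin y ^ 2 := by rw [← cos_sq_add_sin_sq y]; ring
  have ha1 : sin x ≤ 1 := sin_le_one x
  have key : g0 (x, y) ≤ |sin x * cos y / (sin x + sin y) ^ 2| * (sin x ^ 2 * uu (T (x, y))) := by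
    rw [abs_of_pos (by positivity)]
    unfold g0 uu T
    simp only
    set a := sin x
    set b := sin y
    set c := cos y
    have e1 : 1 - b / (a + b) = a / (a + b) := by field_simp; ring
    have e2 : 1 - 2 * (b / (a + b)) = (a - b) / (a + b) := by field_simp; ring
    rw [e1, e2]
    have hs0 : 0 < (a - b) / (a + b) := div_pos (by linarith) (by positivity)
    have hs1 := sq_sqrt hs0.le
    have hs2 : 0 < √((a - b) / (a + b)) := sqrt_pos.2 hs0
    set s := √((a - b) / (a + b))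
    have hs3 : (a + b) * s ≤ a * c := by
      rw [← pow_le_pow_iff_left₀ (by positivity) (by positivity) two_ne_zero, mul_pow, mul_pow, hs1,
        hcs]
      have : (a + b) ^ 2 * ((a - b) / (a + b)) = a ^ 2 - b ^ 2 := by field_simp; ring
      rw [this]
      nlinarith [mul_pos hb hb, mul_le_one₀ ha1 ha.le ha1]
    have e3 : a * c / (a + b) ^ 2 * (a ^ 2 * (b / (a + b) / (a / (a + b) * s)))
        = (a * b / ((a + b) ^ 2 * s)) * (a * c) := by field_simp
    have e4 : a * (b / (a + b)) = (a * b / ((a + b) ^ 2 * s)) * ((a + b) * s) := by field_simp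
    rw [e3, e4]
    exact mul_le_mul_of_nonneg_left hs3 (by positivity)
  calc ENNReal.ofReal (g0 (x, y)) * F (T (x, y))
      ≤ ENNReal.ofReal (|sin x * cos y / (sin x + sin y) ^ 2| * (sin x ^ 2 * uu (T (x, y))))
        * F (T (x, y)) := by gcongr
    _ = _ := by
      rw [ENNReal.ofReal_mul (abs_nonneg _), ENNReal.ofReal_mul (by positivity)]
      ring

lemma inner_lower (F : ℝ → ℝ≥0∞) :
      ENNReal.ofReal (sin x ^ 2) * ∫⁻ t in Ioo 0 (1 / 2), F t * ENNReal.ofReal (ll t) ≤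
    ∫⁻ y in Ioo 0 x, ENNReal.ofReal (g0 (x, y)) * F (T (x, y)) := by
  have ha := sin_pos' hx
  rw [← T_image hx, lintegral_image_eq_lintegral_abs_deriv_mul measurableSet_Ioo (T_deriv hx)
    (T_inj hx), ← lintegral_const_mul' _ _ ENNReal.ofReal_ne_top]
  refine setLIntegral_mono' measurableSet_Ioo fun y hy => ?_
  have hb := sin_pos' (sub_Ioo hx hy)
  have hc : 0 < cos y := cos_pos_of_mem_Ioo ⟨by linarith [hy.1, pi_pos], (sub_Ioo hx hy).2⟩
  have hc1 : cos y ≤ 1 := cos_le_one y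
  have key : |sin x * cos y / (sin x + sin y) ^ 2| * (sin x ^ 2 * ll (T (x, y))) ≤ g0 (x, y) := by
    rw [abs_of_pos (by positivity)]
    unfold g0 ll T
    simp only
    set a := sin x
    set b := sin y
    set c := cos y
    have e1 : 1 - b / (a + b) = a / (a + b) := by field_simp; ring
    rw [e1]
    have e3 : a * c / (a + b) ^ 2 * (a ^ 2 * (b / (a + b) / (a / (a + b)) ^ 2))
        = a * (b / (a + b)) * c := by field_simp
    rw [e3]
    exact mul_le_of_le_one_right (by positivity) hc1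
  calc ENNReal.ofReal (sin x ^ 2) * (ENNReal.ofReal |sin x * cos y / (sin x + sin y) ^ 2| *
        (F (T (x, y)) * ENNReal.ofReal (ll (T (x, y)))))
      = ENNReal.ofReal (|sin x * cos y / (sin x + sin y) ^ 2| * (sin x ^ 2 * ll (T (x, y))))
        * F (T (x, y)) := by
        rw [ENNReal.ofReal_mul (abs_nonneg _), ENNReal.ofReal_mul (by positivity)]
        ring
    _ ≤ ENNReal.ofReal (g0 (x, y)) * F (T (x, y)) := by gcongr

lemma inner_swap (F : ℝ → ℝ≥0∞) :
    ∫⁻ y in Ioo 0 x, ENNReal.ofReal (g0 (y, x)) * F (T (y, x)) =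
    ∫⁻ y in Ioo 0 x, ENNReal.ofReal (g0 (x, y)) * (fun t => F (1 - t)) (T (x, y)) := by
  have ha := sin_pos' hx
  refine setLIntegral_congr_fun measurableSet_Ioo fun y hy => ?_
  have hb := sin_pos' (sub_Ioo hx hy)
  have e1 : T (y, x) = 1 - T (x, y) := by
    unfold T; simp only; field_simp; ring
  have e2 : g0 (y, x) = g0 (x, y) := by
    unfold g0 T; simp only; field_simp; ring
  simp only [e1, e2]

end inner

lemma lint_sin_sq : ∫⁻ x, ENNReal.ofReal (sin x ^ 2) ∂nu = ENNReal.ofReal (π / 4) := by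
  rw [← ofReal_integral_eq_lintegral_ofReal]
  · congr 1
    unfold nu
    rw [← integral_Ioc_eq_integral_Ioo, ← intervalIntegral.integral_of_le (by positivity),
      integral_sin_sq]
    simp
    ring
  · refine Integrable.of_bound (by fun_prop) 1 (Filter.Eventually.of_forall fun x => ?_)
    rw [norm_pow, norm_eq_abs]
    exact pow_le_one₀ (abs_nonneg _) (abs_sin_le_one _)
  · exact Filter.Eventually.of_forall fun x => by positivity

lemma lintegral_reflect {F : ℝ → ℝ≥0∞} (v : ℝ → ℝ) :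
    ∫⁻ t in Ioo 0 (1 / 2), F (1 - t) * ENNReal.ofReal (v t)
      = ∫⁻ t in Ioo (1 / 2) 1, F t * ENNReal.ofReal (v (1 - t)) := by
  rw [← lintegral_indicator measurableSet_Ioo, ← lintegral_indicator measurableSet_Ioo,
    ← lintegral_sub_left_eq_self _ (1 : ℝ)]
  congr 1
  ext t
  by_cases h : t ∈ Ioo (1 / 2 : ℝ) 1
  · have h' : 1 - t ∈ Ioo (0 : ℝ) (1 / 2) := ⟨by linarith [h.2], by linarith [h.1]⟩
    rw [indicator_of_mem h, indicator_of_mem h']
    simp
  · have h' : 1 - t ∉ Ioo (0 : ℝ) (1 / 2) := fun h' => h ⟨by linarith [h'.2], by linarith [h'.1]⟩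
    rw [indicator_of_notMem h, indicator_of_notMem h']

theorem lam_upper {F : ℝ → ℝ≥0∞} (hF : Measurable F) :
    ∫⁻ t, F t ∂lam ≤ ENNReal.ofReal (π / 4) *
      ((∫⁻ t in Ioo 0 (1 / 2), F t * ENNReal.ofReal (uu t))
        + ∫⁻ t in Ioo (1 / 2) 1, F t * ENNReal.ofReal (uu (1 - t))) := by
  rw [split_lam hF, mul_add, ← lintegral_reflect uu, ← lint_sin_sq]
  refine add_le_add ?_ ?_
  · rw [← lintegral_mul_const _ (by fun_prop)]
    refine lintegral_mono_ae ?_
    filter_upwards [nu_ae] with x hx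
    exact inner_upper hx F
  · rw [← lintegral_mul_const _ (by fun_prop)]
    refine lintegral_mono_ae ?_
    filter_upwards [nu_ae] with x hx
    rw [inner_swap hx]
    exact inner_upper hx _

theorem lam_lower {F : ℝ → ℝ≥0∞} (hF : Measurable F) :
    ENNReal.ofReal (π / 4) *
      ((∫⁻ t in Ioo 0 (1 / 2), F t * ENNReal.ofReal (ll t))
        + ∫⁻ t in Ioo (1 / 2) 1, F t * ENNReal.ofReal (ll (1 - t))) ≤ ∫⁻ t, F t ∂lam := by
  rw [split_lam hF, mul_add, ← lintegral_reflect ll, ← lint_sin_sq]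
  refine add_le_add ?_ ?_
  · rw [← lintegral_mul_const _ (by fun_prop)]
    refine lintegral_mono_ae ?_
    filter_upwards [nu_ae] with x hx
    exact inner_lower hx F
  · rw [← lintegral_mul_const _ (by fun_prop)]
    refine lintegral_mono_ae ?_
    filter_upwards [nu_ae] with x hx
    rw [inner_swap hx]
    exact inner_lower hx _

/-! ### The key inequality between the two measures -/

lemma lam_ae : ∀ᵐ t ∂lam, t ∈ Ioo (0 : ℝ) 1 := by
  unfold lam
  refine (ae_map_iff (p := fun t => t ∈ Ioo (0 : ℝ) 1) meas_T.aemeasurable measurableSet_Ioo).2 ?_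
  refine (withDensity_absolutelyContinuous mu _).ae_le ?_
  filter_upwards [mu_ae] with p hp
  exact T_mem hp

lemma lam_mass : lam univ ≤ ENNReal.ofReal (π / 4) := by
  have h0 : lam univ = ∫⁻ _, (1 : ℝ≥0∞) ∂lam := by simp
  have hi1 : Integrable (fun p : ℝ × ℝ => sin p.1 * (fun _ => (1 : ℝ)) p.2) mu :=
    int_of_bdd (by fun_prop) 1 fun p => by simpa using abs_sin_le_one _
  have hi2 : Integrable (fun p : ℝ × ℝ => (fun _ => (1 : ℝ)) p.1 * sin p.2) mu :=
    int_of_bdd (by fun_prop) 1 fun p => by simpa using abs_sin_le_one _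
  have hs : ∫ x, sin x ∂nu = 1 := by
    unfold nu
    rw [← integral_Ioc_eq_integral_Ioo, ← intervalIntegral.integral_of_le (by positivity),
      integral_sin]
    simp
  have h1 : ∫⁻ p, ENNReal.ofReal ((sin p.1 * (fun _ => (1 : ℝ)) p.2
      + (fun _ => (1 : ℝ)) p.1 * sin p.2) / 4) ∂mu = ENNReal.ofReal (π / 4) := by
    rw [← ofReal_integral_eq_lintegral_ofReal]
    · congr 1
      have q1 : ∫ p, sin p.1 * (fun _ => (1 : ℝ)) p.2 ∂mu = (∫ x, sin x ∂nu) * ∫ _, (1 : ℝ) ∂nu :=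
        integral_prod_mul (μ := nu) (ν := nu) (fun x => sin x) (fun _ => (1 : ℝ))
      have q2 : ∫ p, (fun _ => (1 : ℝ)) p.1 * sin p.2 ∂mu = (∫ _, (1 : ℝ) ∂nu) * ∫ x, sin x ∂nu :=
        integral_prod_mul (μ := nu) (ν := nu) (fun _ => (1 : ℝ)) (fun x => sin x)
      rw [integral_div, integral_add hi1 hi2, q1, q2, hs, integral_const, nu_real]
      simp only [smul_eq_mul]
      ring
    · exact (hi1.add hi2).div_const 4
    · filter_upwards [mu_ae] with p hp
      have ha := sin_pos' hp.1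
      have hb := sin_pos' hp.2
      simp only [Pi.zero_apply]
      positivity
  rw [h0, lintegral_lam measurable_const, ← h1]
  refine lintegral_mono_ae ?_
  filter_upwards [mu_ae] with p hp
  have ha := sin_pos' hp.1
  have hb := sin_pos' hp.2
  rw [mul_one]
  refine ENNReal.ofReal_le_ofReal ?_
  unfold g0 T
  rw [← mul_div_assoc, div_le_div_iff₀ (by positivity) (by norm_num)]
  nlinarith [sq_nonneg (sin p.1 - sin p.2)]

instance : IsFiniteMeasure lam := ⟨lam_mass.trans_lt ENNReal.ofReal_lt_top⟩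

noncomputable def h2 (t : ℝ) : ℝ := if t < 1 / 2 then t else (1 - t) ^ 3 / t ^ 2

lemma meas_h2 : Measurable h2 := by
  unfold h2
  exact Measurable.ite measurableSet_Iio (by fun_prop) (by fun_prop)

lemma ineq1 {x y : ℝ} (hy : 0 < y) (hyx : y < x) (h : x * y < 1 / 4) :
    (x - y) ^ 2 / 2 * uu y ≤ x * (x * y) := by
  have hx0 : 0 < x := hy.trans hyx
  have hy2 : y < 1 / 2 := by nlinarith
  have h1 : 0 < 1 - 2 * y := by linarith
  have h1' : 0 < 1 - y := by linarith
  unfold uu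
  set q := √(1 - 2 * y) with hq
  have hq0 : 0 < q := sqrt_pos.2 h1
  have hq2 : q ^ 2 = 1 - 2 * y := sq_sqrt h1.le
  have key : (x - y) ^ 2 ≤ 2 * x ^ 2 * (1 - y) * q := by
    have e1 : x - y ≤ x * (1 - 4 * y ^ 2) := by nlinarith
    have e2 : 1 - 4 * y ^ 2 = q ^ 2 * (2 - q ^ 2) := by rw [hq2]; ring
    have hw1 : q ^ 2 < 1 := by rw [hq2]; linarith
    have e3' : q ^ 2 * (2 - q ^ 2) ^ 2 ≤ 2 := by
      have a1 : q ^ 2 * (2 - q ^ 2) ≤ 1 := by nlinarith [sq_nonneg (q ^ 2 - 1)]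
      calc q ^ 2 * (2 - q ^ 2) ^ 2 = (q ^ 2 * (2 - q ^ 2)) * (2 - q ^ 2) := by ring
        _ ≤ 1 * (2 - q ^ 2) := by gcongr; linarith
        _ ≤ 2 := by nlinarith [sq_nonneg q]
    have e3 : q ^ 3 * (2 - q ^ 2) ^ 2 ≤ 1 + q ^ 2 := by
      calc q ^ 3 * (2 - q ^ 2) ^ 2 = q * (q ^ 2 * (2 - q ^ 2) ^ 2) := by ring
        _ ≤ q * 2 := by gcongr
        _ ≤ 1 + q ^ 2 := by nlinarith [sq_nonneg (q - 1)]
    have e4 : 2 * (1 - y) = 1 + q ^ 2 := by rw [hq2]; ring
    calc (x - y) ^ 2 ≤ (x * (1 - 4 * y ^ 2)) ^ 2 :=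
          pow_le_pow_left₀ (by linarith) e1 2
      _ = x ^ 2 * q * (q ^ 3 * (2 - q ^ 2) ^ 2) := by rw [e2]; ring
      _ ≤ x ^ 2 * q * (1 + q ^ 2) := by gcongr
      _ = 2 * x ^ 2 * (1 - y) * q := by rw [← e4]; ring
  have e5 : (x - y) ^ 2 / 2 * (y / ((1 - y) * q)) = ((x - y) ^ 2 * y) / (2 * (1 - y) * q) := by
    field_simp
  rw [e5, div_le_iff₀ (by positivity)]
  calc (x - y) ^ 2 * y ≤ 2 * x ^ 2 * (1 - y) * q * y := by gcongr
    _ = _ := by ring

lemma ineq2 {x y : ℝ} (hy : 0 < y) (hyx : y < x) (hx : x < 1) (h : 1 / 4 ≤ x * y) :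
    (x - y) ^ 2 / 2 * uu (1 - x) ≤ y * (x * y) := by
  have hx0 : 0 < x := hy.trans hyx
  have hx2 : 1 / 2 < x := by nlinarith
  have h1 : 0 < 2 * x - 1 := by linarith
  unfold uu
  rw [show 1 - 2 * (1 - x) = 2 * x - 1 by ring, show 1 - (1 - x) = x by ring]
  set s := √(2 * x - 1) with hs
  have hs0 : 0 < s := sqrt_pos.2 h1
  have hs2 : s ^ 2 = 2 * x - 1 := sq_sqrt h1.le
  have hs1 : s ^ 2 < 1 := by rw [hs2]; linarith
  have hs1' : s < 1 := by nlinarith
  have key : (x - y) ^ 2 * (1 - x) ≤ 2 * x ^ 2 * y ^ 2 * s := by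
    have e1 : x - y ≤ y * (4 * x ^ 2 - 1) := by nlinarith
    have e2 : 4 * x ^ 2 - 1 = s ^ 2 * (2 + s ^ 2) := by rw [hs2]; ring
    have e3 : 1 - x = (1 - s ^ 2) / 2 := by rw [hs2]; ring
    have e4 : 2 * x ^ 2 = (1 + s ^ 2) ^ 2 / 2 := by rw [hs2]; ring
    have e5 : s ^ 3 * (2 + s ^ 2) ^ 2 * (1 - s ^ 2) ≤ (1 + s ^ 2) ^ 2 := by
      have a1 : s ^ 2 * (1 - s ^ 2) ≤ 1 / 4 := by nlinarith [sq_nonneg (s ^ 2 - 1 / 2)]
      have a0 : 0 ≤ s ^ 2 * (1 - s ^ 2) := by nlinarith [sq_nonneg s]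
      have a2 : s * (s ^ 2 * (1 - s ^ 2)) ≤ 1 / 4 := by nlinarith
      have a3 : (2 + s ^ 2) ^ 2 ≤ 4 * (1 + s ^ 2) ^ 2 := by nlinarith [sq_nonneg s]
      calc s ^ 3 * (2 + s ^ 2) ^ 2 * (1 - s ^ 2) = (s * (s ^ 2 * (1 - s ^ 2))) * (2 + s ^ 2) ^ 2 := by
            ring
        _ ≤ (1 / 4) * (4 * (1 + s ^ 2) ^ 2) := by gcongr
        _ = _ := by ring
    calc (x - y) ^ 2 * (1 - x) ≤ (y * (4 * x ^ 2 - 1)) ^ 2 * (1 - x) := by
          refine mul_le_mul_of_nonneg_right (pow_le_pow_left₀ (by linarith) e1 2) (by linarith)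
      _ = y ^ 2 * s / 2 * (s ^ 3 * (2 + s ^ 2) ^ 2 * (1 - s ^ 2)) := by rw [e2, e3]; ring
      _ ≤ y ^ 2 * s / 2 * (1 + s ^ 2) ^ 2 := by gcongr
      _ = 2 * x ^ 2 * y ^ 2 * s := by rw [e4]; ring
  have e5 : (x - y) ^ 2 / 2 * ((1 - x) / (x * s)) = ((x - y) ^ 2 * (1 - x)) / (2 * x * s) := by
    field_simp
  rw [e5, div_le_iff₀ (by positivity)]
  calc (x - y) ^ 2 * (1 - x) ≤ 2 * x ^ 2 * y ^ 2 * s := key
    _ = _ := by ring

lemma ineq3 {x y : ℝ} (hy : 0 < y) (hyx : y < x) (hx : x < 1) (h : 1 / 2 ≤ x * y) :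
    (x - y) ^ 2 / 2 * uu (1 - x) ≤ y * ((1 - x * y) ^ 3 / (x * y) ^ 2) := by
  have hx0 : 0 < x := hy.trans hyx
  have hx2 : 5 / 8 < x := by nlinarith
  have h1 : 0 < 2 * x - 1 := by linarith
  unfold uu
  rw [show 1 - 2 * (1 - x) = 2 * x - 1 by ring, show 1 - (1 - x) = x by ring]
  set s := √(2 * x - 1) with hs
  have hs0 : 0 < s := sqrt_pos.2 h1
  have hs2 : s ^ 2 = 2 * x - 1 := sq_sqrt h1.le
  have hs3 : 1 ≤ 2 * s := by nlinarith
  have hxy1 : x * y < 1 := by nlinarith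
  have key : (x - y) ^ 2 * (1 - x) * (x * y) ≤ 2 * (1 - x * y) ^ 3 * s := by
    have a1 : x - y ≤ 1 - x * y := by nlinarith
    have a2 : 1 - x ≤ 1 - x * y := by nlinarith
    have a3 : (x - y) ^ 2 ≤ (1 - x * y) ^ 2 := pow_le_pow_left₀ (by linarith) a1 2
    calc (x - y) ^ 2 * (1 - x) * (x * y) ≤ (1 - x * y) ^ 2 * (1 - x * y) * (2 * s) := by
          refine mul_le_mul (mul_le_mul a3 a2 (by linarith) (by positivity)) (by linarith)
            (by positivity) ?_
          have : 0 < 1 - x * y := by linarith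
          positivity
      _ = _ := by ring
  have e5 : (x - y) ^ 2 / 2 * ((1 - x) / (x * s)) = ((x - y) ^ 2 * (1 - x)) / (2 * x * s) := by
    field_simp
  rw [e5, ← mul_div_assoc, div_le_div_iff₀ (by positivity) (by positivity)]
  calc (x - y) ^ 2 * (1 - x) * (x * y) ^ 2 = ((x - y) ^ 2 * (1 - x) * (x * y)) * (x * y) := by ring
    _ ≤ (2 * (1 - x * y) ^ 3 * s) * (x * y) := by gcongr
    _ = _ := by ring

lemma scale1 {x : ℝ} (hx : 0 < x) (G : ℝ → ℝ≥0∞) :
    ∫⁻ y, ENNReal.ofReal x * G (x * y) ≤ ∫⁻ t, G t := by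
  have h := lintegral_image_eq_lintegral_abs_deriv_mul (s := univ) MeasurableSet.univ
    (f := fun y => x * y) (f' := fun _ => x)
    (fun y _ => by
      have := ((hasDerivAt_id' y).const_mul x).hasDerivWithinAt (s := univ)
      rwa [mul_one] at this)
    (fun a _ b _ hab => mul_left_cancel₀ hx.ne' hab) G
  rw [Measure.restrict_univ, abs_of_pos hx] at h
  rw [← h]
  exact setLIntegral_le_lintegral _ _

section B
variable {F : ℝ → ℝ≥0∞} (hF : Measurable F)

noncomputable def Phi (F : ℝ → ℝ≥0∞) (p : ℝ × ℝ) : ℝ≥0∞ :=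
  ENNReal.ofReal ((p.1 - p.2) ^ 2 / 2) * F (p.1 * p.2)

def S1 : Set (ℝ × ℝ) := {p | 0 < p.2 ∧ p.2 < p.1 ∧ p.1 < 1 ∧ p.1 * p.2 < 1 / 4}
def S2 : Set (ℝ × ℝ) := {p | 0 < p.2 ∧ p.2 < p.1 ∧ p.1 < 1 ∧ 1 / 4 ≤ p.1 * p.2}

lemma meas_S1 : MeasurableSet S1 :=
  (measurableSet_lt measurable_const measurable_snd).inter
    ((measurableSet_lt measurable_snd measurable_fst).inter
      ((measurableSet_lt measurable_fst measurable_const).inter
        (measurableSet_lt (measurable_fst.mul measurable_snd) measurable_const)))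

lemma meas_S2 : MeasurableSet S2 :=
  (measurableSet_lt measurable_const measurable_snd).inter
    ((measurableSet_lt measurable_snd measurable_fst).inter
      ((measurableSet_lt measurable_fst measurable_const).inter
        (measurableSet_le measurable_const (measurable_fst.mul measurable_snd))))

include hF

lemma meas_Phi : Measurable (Phi F) := by
  unfold Phi
  exact (by fun_prop : Measurable fun p : ℝ × ℝ => ENNReal.ofReal ((p.1 - p.2) ^ 2 / 2)).mul
    (hF.comp (measurable_fst.mul measurable_snd))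

lemma piece1 {x : ℝ} (hx : x ∈ Ioo (0 : ℝ) 1) :
    ∫⁻ y, S1.indicator (Phi F) (x, y) ∂lam ≤ ENNReal.ofReal (π / 4) *
      ∫⁻ t in Ioo 0 (1 / 4), F t * ENNReal.ofReal (h2 t) := by
  have hm : Measurable fun y => S1.indicator (Phi F) (x, y) :=
    ((meas_Phi hF).indicator meas_S1).comp measurable_prodMk_left
  refine (lam_upper hm).trans ?_
  gcongr
  have hz : ∫⁻ y in Ioo (1 / 2) 1, S1.indicator (Phi F) (x, y) * ENNReal.ofReal (uu (1 - y)) = 0 := by
    rw [setLIntegral_congr_fun (g := fun _ => 0) measurableSet_Ioo]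
    · simp
    · intro y hy
      have : (x, y) ∉ S1 := by
        rintro ⟨h1, h2, h3, h4⟩
        have := hy.1
        simp only at h1 h2 h3 h4
        nlinarith
      simp only [indicator_of_notMem this, zero_mul]
  rw [hz, add_zero, ← lintegral_indicator (s := Ioo 0 (1 / 4)) measurableSet_Ioo]
  refine le_trans ?_ (scale1 hx.1 _)
  refine (lintegral_mono_ae (g := fun y => ENNReal.ofReal x *
    (Ioo 0 (1 / 4)).indicator (fun t => F t * ENNReal.ofReal (h2 t)) (x * y)) ?_).trans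
    (setLIntegral_le_lintegral _ _)
  refine (ae_restrict_mem measurableSet_Ioo).mono fun y hy => ?_
  by_cases h : (x, y) ∈ S1
  · obtain ⟨h1, h2', h3, h4⟩ := id h
    simp only at h1 h2' h3 h4
    have hmem : x * y ∈ Ioo (0 : ℝ) (1 / 4) := ⟨mul_pos hx.1 h1, h4⟩
    simp only [indicator_of_mem h, indicator_of_mem hmem]
    have e : h2 (x * y) = x * y := by
      unfold h2; rw [if_pos (by linarith)]
    rw [e]
    unfold Phi
    simp only
    calc ENNReal.ofReal ((x - y) ^ 2 / 2) * F (x * y) * ENNReal.ofReal (uu y)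
        = ENNReal.ofReal ((x - y) ^ 2 / 2 * uu y) * F (x * y) := by
          rw [ENNReal.ofReal_mul (by positivity)]; ring
      _ ≤ ENNReal.ofReal (x * (x * y)) * F (x * y) :=
          mul_le_mul' (ENNReal.ofReal_le_ofReal (ineq1 h1 h2' h4)) le_rfl
      _ = _ := by rw [ENNReal.ofReal_mul hx.1.le]; ring
  · simp only [indicator_of_notMem h, zero_mul]
    exact bot_le

lemma piece2 {y : ℝ} (hy : y ∈ Ioo (0 : ℝ) 1) :
    ∫⁻ x, S2.indicator (Phi F) (x, y) ∂lam ≤ ENNReal.ofReal (π / 4) *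
      ∫⁻ t in Ico (1 / 4) 1, F t * ENNReal.ofReal (h2 t) := by
  have hm : Measurable fun x => S2.indicator (Phi F) (x, y) :=
    ((meas_Phi hF).indicator meas_S2).comp measurable_prodMk_right
  refine (lam_upper hm).trans ?_
  gcongr
  have hz : ∫⁻ x in Ioo 0 (1 / 2), S2.indicator (Phi F) (x, y) * ENNReal.ofReal (uu x) = 0 := by
    rw [setLIntegral_congr_fun (g := fun _ => 0) measurableSet_Ioo]
    · simp
    · intro x hx
      have : (x, y) ∉ S2 := by
        rintro ⟨h1, h2, h3, h4⟩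
        have := hx.2
        simp only at h1 h2 h3 h4
        nlinarith
      simp only [indicator_of_notMem this, zero_mul]
  rw [hz, zero_add, ← lintegral_indicator (s := Ico (1 / 4) 1) measurableSet_Ico]
  refine le_trans ?_ (scale1 hy.1 _)
  refine (lintegral_mono_ae (g := fun x => ENNReal.ofReal y *
    (Ico (1 / 4) 1).indicator (fun t => F t * ENNReal.ofReal (h2 t)) (y * x)) ?_).trans
    (setLIntegral_le_lintegral _ _)
  refine (ae_restrict_mem measurableSet_Ioo).mono fun x hx => ?_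
  by_cases h : (x, y) ∈ S2
  · obtain ⟨h1, h2', h3, h4⟩ := id h
    simp only at h1 h2' h3 h4
    have hx0 : 0 < x := h1.trans h2'
    have hmem : x * y ∈ Ico (1 / 4 : ℝ) 1 := ⟨h4, by nlinarith⟩
    simp only [indicator_of_mem h, mul_comm y x, indicator_of_mem hmem]
    have e : (x - y) ^ 2 / 2 * uu (1 - x) ≤ y * h2 (x * y) := by
      unfold h2
      split_ifs with h5
      · exact ineq2 h1 h2' h3 h4
      · exact ineq3 h1 h2' h3 (by linarith)
    unfold Phi
    simp only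
    calc ENNReal.ofReal ((x - y) ^ 2 / 2) * F (x * y) * ENNReal.ofReal (uu (1 - x))
        = ENNReal.ofReal ((x - y) ^ 2 / 2 * uu (1 - x)) * F (x * y) := by
          rw [ENNReal.ofReal_mul (by positivity)]; ring
      _ ≤ ENNReal.ofReal (y * h2 (x * y)) * F (x * y) :=
          mul_le_mul' (ENNReal.ofReal_le_ofReal e) le_rfl
      _ = _ := by rw [ENNReal.ofReal_mul hy.1.le]; ring
  · simp only [indicator_of_notMem h, zero_mul]
    exact bot_le

lemma B_half : ∫⁻ p, Phi F p ∂(lam.prod lam) =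
    2 * ∫⁻ p, (S1.indicator (Phi F) p + S2.indicator (Phi F) p) ∂(lam.prod lam) := by
  have hm : Measurable fun p => S1.indicator (Phi F) p + S2.indicator (Phi F) p :=
    ((meas_Phi hF).indicator meas_S1).add ((meas_Phi hF).indicator meas_S2)
  have hae : ∀ᵐ p ∂(lam.prod lam), p.1 ∈ Ioo (0 : ℝ) 1 ∧ p.2 ∈ Ioo (0 : ℝ) 1 := by
    rw [Measure.ae_prod_iff_ae_ae]
    · filter_upwards [lam_ae] with x hx
      filter_upwards [lam_ae] with y hy
      exact ⟨hx, hy⟩
    · exact (measurable_fst measurableSet_Ioo).inter (measurable_snd measurableSet_Ioo)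
  rw [two_mul]
  nth_rewrite 3 [← lintegral_prod_swap]
  rw [← lintegral_add_left hm]
  refine lintegral_congr_ae ?_
  filter_upwards [hae] with p hp
  obtain ⟨x, y⟩ := p
  simp only at hp
  simp only [Prod.swap_prod_mk]
  obtain ⟨⟨hx0, hx1⟩, ⟨hy0, hy1⟩⟩ := hp
  have hsymm : Phi F (y, x) = Phi F (x, y) := by
    unfold Phi
    simp only
    rw [mul_comm y x, show (y - x) ^ 2 = (x - y) ^ 2 by ring]
  rcases lt_trichotomy x y with h | h | h
  · have a1 : (x, y) ∉ S1 := fun h' => by have := h'.2.1; simp only at this; linarith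
    have a2 : (x, y) ∉ S2 := fun h' => by have := h'.2.1; simp only at this; linarith
    rw [indicator_of_notMem a1, indicator_of_notMem a2]
    by_cases h' : y * x < 1 / 4
    · have b1 : (y, x) ∈ S1 := ⟨hx0, h, hy1, h'⟩
      have b2 : (y, x) ∉ S2 := fun h'' => by have := h''.2.2.2; simp only at this; linarith
      rw [indicator_of_mem b1, indicator_of_notMem b2, hsymm]; simp
    · have b1 : (y, x) ∉ S1 := fun h'' => by have := h''.2.2.2; simp only at this; linarith
      have b2 : (y, x) ∈ S2 := ⟨hx0, h, hy1, not_lt.1 h'⟩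
      rw [indicator_of_notMem b1, indicator_of_mem b2, hsymm]; simp
  · subst h
    have a1 : (x, x) ∉ S1 := fun h' => by have := h'.2.1; simp only at this; linarith
    have a2 : (x, x) ∉ S2 := fun h' => by have := h'.2.1; simp only at this; linarith
    rw [indicator_of_notMem a1, indicator_of_notMem a2]
    simp [Phi]
  · have a1 : (y, x) ∉ S1 := fun h' => by have := h'.2.1; simp only at this; linarith
    have a2 : (y, x) ∉ S2 := fun h' => by have := h'.2.1; simp only at this; linarith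
    rw [indicator_of_notMem a1, indicator_of_notMem a2]
    by_cases h' : x * y < 1 / 4
    · have b1 : (x, y) ∈ S1 := ⟨hy0, h, hx1, h'⟩
      have b2 : (x, y) ∉ S2 := fun h'' => by have := h''.2.2.2; simp only at this; linarith
      rw [indicator_of_mem b1, indicator_of_notMem b2]; simp
    · have b1 : (x, y) ∉ S1 := fun h'' => by have := h''.2.2.2; simp only at this; linarith
      have b2 : (x, y) ∈ S2 := ⟨hy0, h, hx1, not_lt.1 h'⟩
      rw [indicator_of_notMem b1, indicator_of_mem b2]; simp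

lemma B_le : ∫⁻ p, Phi F p ∂(lam.prod lam) ≤
    2 * (ENNReal.ofReal (π / 4) * (ENNReal.ofReal (π / 4) *
      ∫⁻ t in Ioo 0 1, F t * ENNReal.ofReal (h2 t))) := by
  rw [B_half hF, lintegral_add_left ((meas_Phi hF).indicator meas_S1),
    lintegral_prod _ ((meas_Phi hF).indicator meas_S1).aemeasurable,
    lintegral_prod_symm' _ ((meas_Phi hF).indicator meas_S2)]
  have h1 : ∫⁻ x, (∫⁻ y, S1.indicator (Phi F) (x, y) ∂lam) ∂lam ≤
      (ENNReal.ofReal (π / 4) * ∫⁻ t in Ioo 0 (1 / 4), F t * ENNReal.ofReal (h2 t))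
        * ENNReal.ofReal (π / 4) := by
    calc ∫⁻ x, (∫⁻ y, S1.indicator (Phi F) (x, y) ∂lam) ∂lam
        ≤ ∫⁻ _, (ENNReal.ofReal (π / 4) * ∫⁻ t in Ioo 0 (1 / 4), F t * ENNReal.ofReal (h2 t)) ∂lam := by
          refine lintegral_mono_ae ?_
          filter_upwards [lam_ae] with x hx
          exact piece1 hF hx
      _ = _ * lam univ := lintegral_const _
      _ ≤ _ := by gcongr; exact lam_mass
  have h2' : ∫⁻ y, (∫⁻ x, S2.indicator (Phi F) (x, y) ∂lam) ∂lam ≤
      (ENNReal.ofReal (π / 4) * ∫⁻ t in Ico (1 / 4) 1, F t * ENNReal.ofReal (h2 t))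
        * ENNReal.ofReal (π / 4) := by
    calc ∫⁻ y, (∫⁻ x, S2.indicator (Phi F) (x, y) ∂lam) ∂lam
        ≤ ∫⁻ _, (ENNReal.ofReal (π / 4) * ∫⁻ t in Ico (1 / 4) 1, F t * ENNReal.ofReal (h2 t)) ∂lam := by
          refine lintegral_mono_ae ?_
          filter_upwards [lam_ae] with x hx
          exact piece2 hF hx
      _ = _ * lam univ := lintegral_const _
      _ ≤ _ := by gcongr; exact lam_mass
  have h3 : ∫⁻ t in Ioo 0 1, F t * ENNReal.ofReal (h2 t)
      = (∫⁻ t in Ioo 0 (1 / 4), F t * ENNReal.ofReal (h2 t))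
        + ∫⁻ t in Ico (1 / 4) 1, F t * ENNReal.ofReal (h2 t) := by
    rw [← lintegral_union measurableSet_Ico]
    · congr 2
      rw [Ioo_union_Ico_eq_Ioo (by norm_num) (by norm_num)]
    · rw [Set.disjoint_left]
      rintro t ⟨_, h⟩ ⟨h', _⟩
      linarith
  refine mul_le_mul_right ((add_le_add h1 h2').trans_eq ?_) 2
  rw [h3]; ring

lemma A_ge : 2 * (ENNReal.ofReal (π / 4) * (ENNReal.ofReal (π / 4) *
      ∫⁻ t in Ioo 0 1, F t * ENNReal.ofReal (h2 t))) ≤
    ∫⁻ t, F t * ENNReal.ofReal (π / 2 * (1 - t) ^ 2) ∂lam := by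
  have hm : Measurable fun t => F t * ENNReal.ofReal (π / 2 * (1 - t) ^ 2) :=
    hF.mul (by fun_prop)
  refine le_trans ?_ (lam_lower hm)
  have h3 : ∫⁻ t in Ioo 0 1, F t * ENNReal.ofReal (h2 t)
      = (∫⁻ t in Ioo 0 (1 / 2), F t * ENNReal.ofReal (h2 t))
        + ∫⁻ t in Ioo (1 / 2) 1, F t * ENNReal.ofReal (h2 t) := by
    rw [← Ioc_union_Ioo_eq_Ioo (b := (1 / 2 : ℝ)) (by norm_num) (by norm_num),
      lintegral_union measurableSet_Ioo]
    · rw [restrict_Ioo_eq_restrict_Ioc (a := (0 : ℝ)) (b := 1 / 2)]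
    · rw [Set.disjoint_left]
      rintro t ⟨_, h⟩ ⟨h', _⟩
      linarith
  have hpi := pi_pos
  have e1 : ∀ t ∈ Ioo (0 : ℝ) (1 / 2), F t * ENNReal.ofReal (π / 2 * (1 - t) ^ 2)
      * ENNReal.ofReal (ll t) = (2 * ENNReal.ofReal (π / 4)) * (F t * ENNReal.ofReal (h2 t)) := by
    intro t ht
    have h1 : 0 < 1 - t := by linarith [ht.2]
    rw [mul_assoc, ← ENNReal.ofReal_mul (by positivity)]
    have : π / 2 * (1 - t) ^ 2 * ll t = 2 * (π / 4) * h2 t := by
      unfold ll h2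
      rw [if_pos ht.2]
      field_simp
      ring
    rw [this, ENNReal.ofReal_mul (by positivity), ENNReal.ofReal_mul (by norm_num)]
    simp only [ENNReal.ofReal_ofNat]
    ring
  have e2 : ∀ t ∈ Ioo (1 / 2 : ℝ) 1, F t * ENNReal.ofReal (π / 2 * (1 - t) ^ 2)
      * ENNReal.ofReal (ll (1 - t)) = (2 * ENNReal.ofReal (π / 4)) * (F t * ENNReal.ofReal (h2 t)) := by
    intro t ht
    have h1 : 0 < t := by linarith [ht.1]
    rw [mul_assoc, ← ENNReal.ofReal_mul (by positivity)]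
    have : π / 2 * (1 - t) ^ 2 * ll (1 - t) = 2 * (π / 4) * h2 t := by
      unfold ll h2
      rw [if_neg (by linarith [ht.1]), show 1 - (1 - t) = t by ring]
      field_simp
      ring
    rw [this, ENNReal.ofReal_mul (by positivity), ENNReal.ofReal_mul (by norm_num)]
    simp only [ENNReal.ofReal_ofNat]
    ring
  rw [setLIntegral_congr_fun measurableSet_Ioo e1, setLIntegral_congr_fun measurableSet_Ioo e2,
    lintegral_const_mul' _ _ (by finiteness), lintegral_const_mul' _ _ (by finiteness), h3]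
  refine le_of_eq ?_
  ring

theorem B_le_A : ∫⁻ p, Phi F p ∂(lam.prod lam) ≤
    ∫⁻ t, F t * ENNReal.ofReal (π / 2 * (1 - t) ^ 2) ∂lam := (B_le hF).trans (A_ge hF)

end B

/-! ### Moments -/

lemma lam_bdd {h : ℝ → ℝ} (hm : Measurable h) (C : ℝ) (hC : ∀ t ∈ Ioo (0 : ℝ) 1, |h t| ≤ C) :
    Integrable h lam := by
  refine Integrable.of_bound hm.aestronglyMeasurable C ?_
  filter_upwards [lam_ae] with t ht
  exact hC t ht

lemma int_pow (n : ℕ) : Integrable (fun t : ℝ => t ^ n) lam :=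
  lam_bdd (by fun_prop) 1 fun t ht => by
    rw [abs_pow, abs_of_pos ht.1]
    exact pow_le_one₀ ht.1.le ht.2.le

lemma J_eq (n : ℕ) : ∫ t, t ^ n ∂lam = J n := by
  unfold lam J
  rw [integral_map meas_T.aemeasurable (by fun_prop),
    integral_withDensity_eq_integral_toReal_smul meas_g0.ennreal_ofReal
      (Filter.Eventually.of_forall fun _ => ENNReal.ofReal_lt_top)]
  refine integral_congr_ae ?_
  filter_upwards [mu_ae] with p hp
  have ha := sin_pos' hp.1
  have hT := (T_mem hp).1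
  rw [ENNReal.toReal_ofReal (by unfold g0; positivity), smul_eq_mul]
  unfold g0
  ring

lemma int3 {Ω : Type} [MeasurableSpace Ω] {μ : Measure Ω} {a b c : Ω → ℝ} (ha : Integrable a μ)
    (hb : Integrable b μ) (hc : Integrable c μ) :
    ∫ w, (a w + b w - c w) ∂μ = ∫ w, a w ∂μ + ∫ w, b w ∂μ - ∫ w, c w ∂μ := by
  have h1 : ∫ w, (a w + b w - c w) ∂μ = ∫ w, (a + b) w ∂μ - ∫ w, c w ∂μ :=
    integral_sub (ha.add hb) hc
  have h2 : ∫ w, (a + b) w ∂μ = ∫ w, a w ∂μ + ∫ w, b w ∂μ := integral_add ha hb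
  rw [h1, h2]

/-- the measure `(π/2)(1-t)² lam` -/
noncomputable def mA : Measure ℝ := lam.withDensity (fun t => ENNReal.ofReal (π / 2 * (1 - t) ^ 2))

/-- the image of `(1/2)(x-y)² lam ⊗ lam` under the product `xy` -/
noncomputable def mB : Measure ℝ :=
  ((lam.prod lam).withDensity (fun p => ENNReal.ofReal ((p.1 - p.2) ^ 2 / 2))).map
    (fun p => p.1 * p.2)

lemma meas_dA : Measurable fun t : ℝ => ENNReal.ofReal (π / 2 * (1 - t) ^ 2) := by fun_prop
lemma meas_dB : Measurable fun p : ℝ × ℝ => ENNReal.ofReal ((p.1 - p.2) ^ 2 / 2) := by fun_prop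
lemma meas_mul : Measurable fun p : ℝ × ℝ => p.1 * p.2 := by fun_prop

lemma mB_le_mA : mB ≤ mA := by
  rw [Measure.le_iff]
  intro s hs
  have hF : Measurable (s.indicator (fun _ => (1 : ℝ≥0∞))) := measurable_const.indicator hs
  have h1 : mB s = ∫⁻ p, Phi (s.indicator (fun _ => (1 : ℝ≥0∞))) p ∂(lam.prod lam) := by
    have e := lintegral_indicator_one (μ := mB) hs
    rw [← e]
    unfold mB
    have e2 := lintegral_withDensity_eq_lintegral_mul (lam.prod lam) meas_dB (hF.comp meas_mul)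
    rw [lintegral_map (by exact hF) meas_mul]
    exact e2
  have h2 : mA s = ∫⁻ t, (s.indicator (fun _ => (1 : ℝ≥0∞))) t
      * ENNReal.ofReal (π / 2 * (1 - t) ^ 2) ∂lam := by
    have e := lintegral_indicator_one (μ := mA) hs
    rw [← e]
    unfold mA
    have e2 := lintegral_withDensity_eq_lintegral_mul lam meas_dA hF
    refine e2.trans ?_
    refine lintegral_congr fun t => ?_
    simp only [Pi.mul_apply]
    ring
  rw [h1, h2]
  exact B_le_A hF

instance : IsFiniteMeasure mA := by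
  unfold mA
  refine isFiniteMeasure_withDensity_ofReal (Integrable.hasFiniteIntegral ?_)
  refine lam_bdd (by fun_prop) (π / 2) fun t ht => ?_
  have hpi := pi_pos
  rw [abs_of_nonneg (by positivity)]
  have : (1 - t) ^ 2 ≤ 1 := pow_le_one₀ (by linarith [ht.2]) (by linarith [ht.1])
  nlinarith

instance : IsFiniteMeasure mB := isFiniteMeasure_of_le mA mB_le_mA

lemma mA_ae : ∀ᵐ t ∂mA, t ∈ Ioo (0 : ℝ) 1 :=
  (withDensity_absolutelyContinuous lam _).ae_le lam_ae

lemma intA (k : ℕ) : Integrable (fun t : ℝ => t ^ k) mA := by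
  refine Integrable.of_bound (by fun_prop) 1 ?_
  filter_upwards [mA_ae] with t ht
  rw [norm_pow, norm_eq_abs, abs_of_pos ht.1]
  exact pow_le_one₀ ht.1.le ht.2.le

lemma momA (k : ℕ) : ∫ t, t ^ k ∂mA = π / 2 * (J k - 2 * J (k + 1) + J (k + 2)) := by
  unfold mA
  rw [integral_withDensity_eq_integral_toReal_smul meas_dA
      (Filter.Eventually.of_forall fun _ => ENNReal.ofReal_lt_top)]
  have hpi := pi_pos
  calc ∫ t, (ENNReal.ofReal (π / 2 * (1 - t) ^ 2)).toReal • t ^ k ∂lam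
      = ∫ t, π / 2 * (t ^ k + t ^ (k + 2) - 2 * t ^ (k + 1)) ∂lam := by
        refine integral_congr_ae (Filter.Eventually.of_forall fun t => ?_)
        simp only
        rw [ENNReal.toReal_ofReal (by positivity), smul_eq_mul]
        ring
    _ = _ := by
        rw [integral_const_mul]
        congr 1
        refine (int3 (int_pow k) (int_pow (k + 2)) ((int_pow (k + 1)).const_mul 2)).trans ?_
        rw [integral_const_mul, J_eq, J_eq, J_eq]
        ring

lemma momB (k : ℕ) : ∫ t, t ^ k ∂mB = J k * J (k + 2) - J (k + 1) ^ 2 := by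
  unfold mB
  rw [integral_map meas_mul.aemeasurable (by fun_prop),
    integral_withDensity_eq_integral_toReal_smul meas_dB
      (Filter.Eventually.of_forall fun _ => ENNReal.ofReal_lt_top)]
  have hprod : ∀ i j : ℕ, ∫ p, p.1 ^ i * p.2 ^ j ∂(lam.prod lam) = J i * J j := by
    intro i j
    have := integral_prod_mul (μ := lam) (ν := lam) (fun x : ℝ => x ^ i) (fun y : ℝ => y ^ j)
    rw [J_eq, J_eq] at this
    exact this
  have hint : ∀ i j : ℕ, Integrable (fun p : ℝ × ℝ => p.1 ^ i * p.2 ^ j) (lam.prod lam) :=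
    fun i j => (int_pow i).mul_prod (int_pow j)
  calc ∫ p, (ENNReal.ofReal ((p.1 - p.2) ^ 2 / 2)).toReal • (p.1 * p.2) ^ k ∂(lam.prod lam)
      = ∫ p, (1 / 2 * (p.1 ^ (k + 2) * p.2 ^ k) + 1 / 2 * (p.1 ^ k * p.2 ^ (k + 2))
          - p.1 ^ (k + 1) * p.2 ^ (k + 1)) ∂(lam.prod lam) := by
        refine integral_congr_ae (Filter.Eventually.of_forall fun p => ?_)
        simp only
        rw [ENNReal.toReal_ofReal (by positivity), smul_eq_mul]
        ring
    _ = _ := by
        refine (int3 ((hint (k + 2) k).const_mul (1 / 2)) ((hint k (k + 2)).const_mul (1 / 2))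
          (hint (k + 1) (k + 1))).trans ?_
        rw [integral_const_mul, integral_const_mul, hprod, hprod, hprod]
        ring

/-- the measure whose moments are the `W`-numbers (up to scaling) -/
noncomputable def mM : Measure ℝ := mA - mB

instance : IsFiniteMeasure mM := isFiniteMeasure_of_le mA Measure.sub_le

lemma mM_ae : ∀ᵐ t ∂mM, t ∈ Ioo (0 : ℝ) 1 :=
  (Measure.absolutelyContinuous_of_le Measure.sub_le).ae_le mA_ae

noncomputable def A (n : ℕ) : ℝ := π / 2 - J n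

lemma momM (k : ℕ) : ∫ t, t ^ k ∂mM = A (k + 1) ^ 2 - A k * A (k + 2) := by
  have h : mM + mB = mA := Measure.sub_add_cancel_of_le mB_le_mA
  have h1 : ∫ t, t ^ k ∂mA = ∫ t, t ^ k ∂mM + ∫ t, t ^ k ∂mB := by
    have := integral_add_measure (μ := mM) (ν := mB) ((intA k).mono_measure Measure.sub_le)
      ((intA k).mono_measure mB_le_mA)
    rw [h] at this
    exact this
  rw [momA, momB] at h1
  unfold A
  linarith

lemma A_one : 0 < A 1 := by
  have h1 : J 1 ≤ J 0 := by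
    rw [← J_eq, ← J_eq]
    refine integral_mono_ae (int_pow 1) (int_pow 0) ?_
    filter_upwards [lam_ae] with t ht
    simp only [pow_one, pow_zero]
    exact ht.2.le
  have h0 : J 0 ≤ π / 4 := by
    rw [← J_eq]
    simp only [pow_zero, integral_const, smul_eq_mul, mul_one, Measure.real]
    exact ENNReal.toReal_le_of_le_ofReal (by positivity) lam_mass
  unfold A
  linarith [pi_pos]

lemma A_rec (m : ℕ) :
    2 * ((m : ℝ) + 2) ^ 2 * (m + 1) * A (m + 2)
      = (3 * ((m : ℝ) + 2) ^ 2 - (m + 2) - 1) * (m + 1) * A (m + 1)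
      - ((m : ℝ) + 2) ^ 2 * m * A m := by
  have := J_rec m
  unfold A
  linear_combination -this

/-! ### The sequences -/

/-- The Fennessey-Larcombe-French sequence. -/
noncomputable def V : ℕ → ℝ
  | 0 => 1
  | 1 => 8
  | (n + 2) => 8 * (3 * ((n + 2 : ℕ) : ℝ) ^ 2 - ((n + 2 : ℕ) : ℝ) - 1) / ((n + 2 : ℕ) : ℝ) ^ 2
        * V (n + 1)
      - 128 * (((n + 2 : ℕ) : ℝ) - 2) / (((n + 2 : ℕ) : ℝ) - 1) * V n

/-- `W_n = V_n² - V_{n-1} V_{n+1}` (used for `n ≥ 2`). -/
noncomputable def W (n : ℕ) : ℝ := V n ^ 2 - V (n - 1) * V (n + 1)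

lemma V_step (m : ℕ) {c : ℝ} (h1 : V (m + 1) = c * 16 ^ (m + 1) * A (m + 1))
    (h0 : (m : ℝ) * V m = m * (c * 16 ^ m * A m)) : V (m + 2) = c * 16 ^ (m + 2) * A (m + 2) := by
  have hm1 : (m : ℝ) + 1 ≠ 0 := by positivity
  have hm2 : (m : ℝ) + 2 ≠ 0 := by positivity
  have hV : V (m + 2) = 8 * (3 * ((m : ℝ) + 2) ^ 2 - (m + 2) - 1) / ((m : ℝ) + 2) ^ 2 * V (m + 1)
      - 128 / ((m : ℝ) + 1) * (m * V m) := by
    rw [V]
    push_cast
    rw [show (m : ℝ) + 2 - 2 = m by ring, show (m : ℝ) + 2 - 1 = m + 1 by ring]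
    ring
  rw [hV, h1, h0]
  have hr := A_rec m
  have h2 : A (m + 2) = ((3 * ((m : ℝ) + 2) ^ 2 - (m + 2) - 1) * (m + 1) * A (m + 1)
      - ((m : ℝ) + 2) ^ 2 * m * A m) / (2 * ((m : ℝ) + 2) ^ 2 * (m + 1)) := by
    rw [eq_div_iff (by positivity), ← hr]; ring
  rw [h2]
  field_simp
  ring

lemma V_eq : ∃ c : ℝ, ∀ n, V (n + 1) = c * 16 ^ (n + 1) * A (n + 1) := by
  have hA := A_one.ne'
  refine ⟨1 / (2 * A 1), ?_⟩
  have h1 : V (0 + 1) = 1 / (2 * A 1) * 16 ^ (0 + 1) * A (0 + 1) := by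
    have : V (0 + 1) = 8 := rfl
    rw [this]
    simp only [zero_add]
    field_simp
    norm_num
  have key : ∀ n, V (n + 1) = 1 / (2 * A 1) * 16 ^ (n + 1) * A (n + 1) ∧
      V (n + 2) = 1 / (2 * A 1) * 16 ^ (n + 2) * A (n + 2) := by
    intro n
    induction n with
    | zero => exact ⟨h1, V_step 0 h1 (by simp)⟩
    | succ n ih => exact ⟨ih.2, V_step (n + 1) ih.2 (by rw [ih.1])⟩
  exact fun n => (key n).1

/-! ### Infinite log-convexity -/

/-- The operator `𝓛`. -/
def Lop (x : ℕ → ℝ) : ℕ → ℝ := fun n => x (n - 1) * x (n + 1) - x n ^ 2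

/-- `(x_n)_{n ≥ m}` is `k`-log-convex. -/
def KLogConvex (m : ℕ) (x : ℕ → ℝ) (k : ℕ) : Prop :=
  (∀ n, m ≤ n → 0 ≤ x n) ∧ ∀ j, 1 ≤ j → j ≤ k → ∀ n, m + j ≤ n → 0 ≤ (Lop^[j] x) n

/-- `(x_n)_{n ≥ m}` is infinitely log-convex. -/
def InfinitelyLogConvex (m : ℕ) (x : ℕ → ℝ) : Prop := ∀ k, 1 ≤ k → KLogConvex m x k

def Rep (m : ℕ) (x : ℕ → ℝ) : Prop :=
  ∃ (Ω : Type) (_ : MeasurableSpace Ω) (μ : Measure Ω) (_ : IsFiniteMeasure μ) (f g : Ω → ℝ)
    (C : ℝ), Measurable f ∧ Measurable g ∧ (∀ w, 0 ≤ f w ∧ f w ≤ C) ∧ (∀ w, 0 ≤ g w ∧ g w ≤ C) ∧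
    ∀ k, x (m + k) = ∫ w, f w ^ k * g w ∂μ

lemma Rep.nonneg {m : ℕ} {x : ℕ → ℝ} (h : Rep m x) {n : ℕ} (hn : m ≤ n) : 0 ≤ x n := by
  obtain ⟨Ω, _, μ, _, f, g, C, hf, hg, hf', hg', hx⟩ := h
  obtain ⟨k, rfl⟩ := Nat.exists_eq_add_of_le hn
  rw [hx]
  exact integral_nonneg fun w => mul_nonneg (pow_nonneg (hf' w).1 _) (hg' w).1

lemma Rep.step {m : ℕ} {x : ℕ → ℝ} (h : Rep m x) : Rep (m + 1) (Lop x) := by
  obtain ⟨Ω, _, μ, _, f, g, C, hf, hg, hf', hg', hx⟩ := h
  refine ⟨Ω × Ω, inferInstance, μ.prod μ, inferInstance, fun w => f w.1 * f w.2,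
    fun w => 1 / 2 * (f w.1 - f w.2) ^ 2 * (g w.1 * g w.2), C * C + 1 / 2 * C ^ 2 * (C * C), ?_, ?_,
    ?_, ?_, ?_⟩
  · exact (hf.comp measurable_fst).mul (hf.comp measurable_snd)
  · exact ((((hf.comp measurable_fst).sub (hf.comp measurable_snd)).pow_const 2).const_mul _).mul
      ((hg.comp measurable_fst).mul (hg.comp measurable_snd))
  · intro w
    obtain ⟨a1, a2⟩ := hf' w.1
    obtain ⟨b1, b2⟩ := hf' w.2
    refine ⟨mul_nonneg a1 b1, ?_⟩
    have : f w.1 * f w.2 ≤ C * C := mul_le_mul a2 b2 b1 (a1.trans a2)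
    have hC : 0 ≤ 1 / 2 * C ^ 2 * (C * C) := by
      have : C ^ 2 * (C * C) = (C * C) ^ 2 := by ring
      nlinarith [sq_nonneg (C * C)]
    linarith
  · intro w
    obtain ⟨a1, a2⟩ := hf' w.1
    obtain ⟨b1, b2⟩ := hf' w.2
    obtain ⟨c1, c2⟩ := hg' w.1
    obtain ⟨d1, d2⟩ := hg' w.2
    refine ⟨by positivity, ?_⟩
    have e1 : g w.1 * g w.2 ≤ C * C := mul_le_mul c2 d2 d1 (c1.trans c2)
    have e2 : (f w.1 - f w.2) ^ 2 ≤ C ^ 2 := by
      rw [sq_le_sq, abs_of_nonneg (a1.trans a2)]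
      exact abs_le.2 ⟨by linarith, by linarith⟩
    have e3 : 1 / 2 * (f w.1 - f w.2) ^ 2 * (g w.1 * g w.2) ≤ 1 / 2 * C ^ 2 * (C * C) :=
      mul_le_mul (by linarith) e1 (mul_nonneg c1 d1) (by positivity)
    nlinarith [mul_self_nonneg C]
  · intro k
    have hint : ∀ j : ℕ, Integrable (fun w => f w ^ j * g w) μ := by
      intro j
      refine Integrable.of_bound ((hf.pow_const j).mul hg).aestronglyMeasurable (C ^ j * C)
        (Filter.Eventually.of_forall fun w => ?_)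
      obtain ⟨a1, a2⟩ := hf' w
      obtain ⟨c1, c2⟩ := hg' w
      rw [Real.norm_of_nonneg (by positivity)]
      exact mul_le_mul (pow_le_pow_left₀ a1 a2 j) c2 c1 (pow_nonneg (a1.trans a2) _)
    have hprod : ∀ i j : ℕ, ∫ w, (f w.1 ^ i * g w.1) * (f w.2 ^ j * g w.2) ∂(μ.prod μ)
        = x (m + i) * x (m + j) := by
      intro i j
      rw [hx, hx]
      exact integral_prod_mul (μ := μ) (ν := μ) (fun w => f w ^ i * g w) (fun w => f w ^ j * g w)
    have hint2 : ∀ i j : ℕ, Integrable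
        (fun w : Ω × Ω => (f w.1 ^ i * g w.1) * (f w.2 ^ j * g w.2)) (μ.prod μ) :=
      fun i j => (hint i).mul_prod (hint j)
    have e : ∫ w, (f w.1 * f w.2) ^ k * (1 / 2 * (f w.1 - f w.2) ^ 2 * (g w.1 * g w.2)) ∂(μ.prod μ)
        = ∫ w, (1 / 2 * ((f w.1 ^ (k + 2) * g w.1) * (f w.2 ^ k * g w.2))
          + 1 / 2 * ((f w.1 ^ k * g w.1) * (f w.2 ^ (k + 2) * g w.2))
          - (f w.1 ^ (k + 1) * g w.1) * (f w.2 ^ (k + 1) * g w.2)) ∂(μ.prod μ) :=
      integral_congr_ae (Filter.Eventually.of_forall fun w => by ring)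
    rw [e]
    refine Eq.trans ?_ (int3 ((hint2 (k + 2) k).const_mul (1 / 2))
      ((hint2 k (k + 2)).const_mul (1 / 2)) (hint2 (k + 1) (k + 1))).symm
    rw [integral_const_mul, integral_const_mul, hprod, hprod, hprod]
    unfold Lop
    rw [show m + 1 + k - 1 = m + k by omega, show m + 1 + k + 1 = m + (k + 2) by omega,
      show m + 1 + k = m + (k + 1) by omega]
    ring

lemma Rep.iterate {m : ℕ} {x : ℕ → ℝ} (h : Rep m x) (j : ℕ) : Rep (m + j) (Lop^[j] x) := by
  induction j with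
  | zero => exact h
  | succ j ih =>
    rw [Function.iterate_succ_apply']
    exact ih.step

lemma Rep.infLogConvex {m : ℕ} {x : ℕ → ℝ} (h : Rep m x) : InfinitelyLogConvex m x :=
  fun _ _ => ⟨fun _ hn => h.nonneg hn, fun j _ _ _ hn => (h.iterate j).nonneg hn⟩

lemma rep_W : Rep 2 W := by
  obtain ⟨c, hc⟩ := V_eq
  refine ⟨ℝ, inferInstance, mM, inferInstance, fun t => 256 * max 0 (min 1 t),
    fun t => c ^ 2 * 256 ^ 2 * max 0 (min 1 t), 256 + c ^ 2 * 256 ^ 2, by fun_prop, by fun_prop,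
    ?_, ?_, ?_⟩
  · intro t
    have h1 : 0 ≤ max 0 (min 1 t) := le_max_left _ _
    have h2 : max 0 (min 1 t) ≤ 1 := max_le zero_le_one (min_le_left _ _)
    constructor
    · positivity
    · nlinarith [sq_nonneg c]
  · intro t
    have h1 : 0 ≤ max 0 (min 1 t) := le_max_left _ _
    have h2 : max 0 (min 1 t) ≤ 1 := max_le zero_le_one (min_le_left _ _)
    constructor
    · positivity
    · have : c ^ 2 * 256 ^ 2 * max 0 (min 1 t) ≤ c ^ 2 * 256 ^ 2 * 1 := by gcongr
      linarith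
  · intro k
    have e1 : ∫ t, (256 * max 0 (min 1 t)) ^ k * (c ^ 2 * 256 ^ 2 * max 0 (min 1 t)) ∂mM
        = ∫ t, (c ^ 2 * 256 ^ (k + 2)) * t ^ (k + 1) ∂mM := by
      refine integral_congr_ae ?_
      filter_upwards [mM_ae] with t ht
      rw [min_eq_right ht.2.le, max_eq_right ht.1.le]
      ring
    rw [e1, integral_const_mul, momM]
    unfold W
    rw [show 2 + k - 1 = k + 1 by omega, show 2 + k + 1 = (k + 2) + 1 by omega,
      show 2 + k = (k + 1) + 1 by omega, hc, hc, hc]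
    have : (256 : ℝ) = 16 ^ 2 := by norm_num
    rw [this, ← pow_mul]
    ring

/-- **Theorem.** The sequence `W_n = V_n² - V_{n-1} V_{n+1}` (`n ≥ 2`) built from the
Fennessey-Larcombe-French sequence is infinitely log-convex. -/
theorem result : InfinitelyLogConvex 2 W := rep_W.infLogConvex

end Pool.Agent.Results.MP_e3a7ef_co.InfLogConvex
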